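import Pool.Agent.L0h45.AV.Stm

/-!
# Module RLI of project AV: the tuple determines `α` up to squares
-/

set_option autoImplicit false
set_option linter.all false

namespace Pool.Agent.L0h23.AV

open Pool.Agent.L0h45.AV
open Pool.Agent.N874.PP (Tup chA chB gq tau)
open Pool.Agent.N922.PQ (dsc IsCub JJ vec)

section

variable {L : Type} [Field L] [CharZero L] {a b : ℤ} {θ : L}

theorem rli_crd (h : IsCub a b θ) (r s t : ℚ) :
    h.co 0 ((r : L) + (s : L) * θ + (t : L) * θ ^ 2) = r ∧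
      h.co 1 ((r : L) + (s : L) * θ + (t : L) * θ ^ 2) = s ∧
      h.co 2 ((r : L) + (s : L) * θ + (t : L) * θ ^ 2) = t := by
  have e : (r : L) + (s : L) * θ + (t : L) * θ ^ 2 =
      r • h.basis 0 + s • h.basis 1 + t • h.basis 2 := by
    simp [h.basis_apply, vec, Rat.smul_def]
  rw [e]
  simp only [IsCub.co, Module.Basis.coord_apply, map_add, map_smul, Finsupp.add_apply,
    Finsupp.smul_apply, Module.Basis.repr_self, smul_eq_mul]
  refine ⟨?_, ?_, ?_⟩ <;> simp [Finsupp.single_apply]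

theorem rli_th (h : IsCub a b θ) (w : L) :
    h.co 2 (θ * w) = h.co 1 w ∧ h.co 1 (θ * w) = h.co 0 w - a * h.co 2 w := by
  obtain ⟨r, s, t, rfl⟩ := h.gen w
  have e : θ * ((r : L) + (s : L) * θ + (t : L) * θ ^ 2) =
      ((-b * t : ℚ) : L) + ((r - a * t : ℚ) : L) * θ + (s : L) * θ ^ 2 := by
    have := h.root
    push_cast
    linear_combination (t : L) * this
  rw [e, (rli_crd h _ _ _).2.2, (rli_crd h _ _ _).2.1, (rli_crd h _ _ _).2.1,
    (rli_crd h _ _ _).2.2, (rli_crd h _ _ _).1]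
  exact ⟨rfl, rfl⟩

theorem rli_ext (h : IsCub a b θ) (w w' : L) (h0 : h.co 0 w = h.co 0 w')
    (h1 : h.co 1 w = h.co 1 w') (h2 : h.co 2 w = h.co 2 w') : w = w' := by
  obtain ⟨r, s, t, rfl⟩ := h.gen w
  obtain ⟨r', s', t', rfl⟩ := h.gen w'
  rw [(rli_crd h _ _ _).1, (rli_crd h _ _ _).1] at h0
  rw [(rli_crd h _ _ _).2.1, (rli_crd h _ _ _).2.1] at h1
  rw [(rli_crd h _ _ _).2.2, (rli_crd h _ _ _).2.2] at h2
  rw [h0, h1, h2]

theorem rli_nd (h : IsCub a b θ) (α : L) (hα : α ≠ 0) (e : Fin 3 → L)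
    (he : LinearIndependent ℚ e) (z : L) (hz : ∀ k, h.co 2 (z * e k / α) = 0) : z = 0 := by
  by_contra hz0
  haveI : FiniteDimensional ℚ L := FiniteDimensional.of_finrank_pos (by rw [h.rank]; norm_num)
  have hspan : Submodule.span ℚ (Set.range e) = ⊤ :=
    he.span_eq_top_of_card_eq_finrank' (by rw [h.rank]; rfl)
  have key : ∀ y : L, h.co 2 (z * y / α) = 0 := by
    intro y
    have hy : y ∈ Submodule.span ℚ (Set.range e) := by rw [hspan]; trivial
    induction hy using Submodule.span_induction with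
    | mem x hx =>
      obtain ⟨k, rfl⟩ := hx
      exact hz k
    | zero => simp
    | add x y _ _ hx hy =>
      rw [mul_add, add_div, map_add, hx, hy, add_zero]
    | smul c x _ hx =>
      rw [mul_smul_comm, smul_div_assoc, map_smul, hx, smul_zero]
  have h1 := key (α * θ ^ 2 / z)
  have h2 : z * (α * θ ^ 2 / z) / α = ((0 : ℚ) : L) + ((0 : ℚ) : L) * θ + ((1 : ℚ) : L) * θ ^ 2 := by
    push_cast
    field_simp
    ring
  rw [h2, (rli_crd h _ _ _).2.2] at h1
  exact one_ne_zero h1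

theorem rli_mul (h : IsCub a b θ) (α : L) (hα : α ≠ 0) (B : Tup ℤ) (e : Fin 3 → L)
    (he : LinearIndependent ℚ e) (hJ : ∀ i j, h.co 2 (e i * e j / α) = (JJ i j : ℚ))
    (hM : ∀ i j, h.co 1 (e i * e j / α) = ((mt B i j : ℤ) : ℚ)) (i : Fin 3) :
    θ * e i = ∑ j, ((mt B i j.rev : ℤ) : ℚ) • e j := by
  rw [← sub_eq_zero]
  refine rli_nd h α hα e he _ fun k => ?_
  have e1 : (θ * e i - ∑ j, ((mt B i j.rev : ℤ) : ℚ) • e j) * e k / α =
      θ * (e i * e k / α) - ∑ j, ((mt B i j.rev : ℤ) : ℚ) • (e j * e k / α) := by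
    rw [sub_mul, sub_div, Finset.sum_mul, Finset.sum_div]
    congr 1
    · ring
    · refine Finset.sum_congr rfl fun j _ => ?_
      rw [smul_mul_assoc, smul_div_assoc]
  rw [e1, map_sub, map_sum, (rli_th h _).1, hM]
  simp only [map_smul, hJ, smul_eq_mul, Fin.sum_univ_three]
  fin_cases k <;> simp [JJ, Fin.rev]

theorem rli_co0 (h : IsCub a b θ) (α : L) (hα : α ≠ 0) (B : Tup ℤ) (e : Fin 3 → L)
    (he : LinearIndependent ℚ e) (hJ : ∀ i j, h.co 2 (e i * e j / α) = (JJ i j : ℚ))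
    (hM : ∀ i j, h.co 1 (e i * e j / α) = ((mt B i j : ℤ) : ℚ)) (i j : Fin 3) :
    h.co 0 (e i * e j / α) =
      (∑ p, ((mt B i p.rev : ℤ) : ℚ) * ((mt B p j : ℤ) : ℚ)) + a * (JJ i j : ℚ) := by
  have h1 := (rli_th h (e i * e j / α)).2
  have h2 : θ * (e i * e j / α) = ∑ p, ((mt B i p.rev : ℤ) : ℚ) • (e p * e j / α) := by
    have : θ * (e i * e j / α) = (θ * e i) * e j / α := by ring
    rw [this, rli_mul h α hα B e he hJ hM i, Finset.sum_mul, Finset.sum_div]
    refine Finset.sum_congr rfl fun p _ => ?_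
    rw [smul_mul_assoc, smul_div_assoc]
  rw [h2, map_sum] at h1
  simp only [map_smul, hM, smul_eq_mul, hJ] at h1
  rw [h1]
  ring

end

/-- module RLI -/
theorem t_RLI : S_RLI := by
  intro L _ _ a b θ h α α' B hα hα' hr hr'
  obtain ⟨e, he, hJ, hM⟩ := hr
  obtain ⟨e', he', hJ', hM'⟩ := hr'
  have key : e 0 * e 0 / α = e' 0 * e' 0 / α' := by
    refine rli_ext h _ _ ?_ ?_ ?_
    · rw [rli_co0 h α hα B e he hJ hM, rli_co0 h α' hα' B e' he' hJ' hM']
    · rw [hM, hM']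
    · rw [hJ, hJ']
  have h0 : e 0 ≠ 0 := he.ne_zero 0
  refine ⟨α * (e' 0) / (e 0), ?_⟩
  rw [div_eq_div_iff hα hα'] at key
  field_simp
  linear_combination key

end Pool.Agent.L0h23.AV
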