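import Pool.Agent.L0h45.AV.Stm

/-!
# Module RLM of project AV: the moves
-/

set_option autoImplicit false
set_option linter.all false

namespace Pool.Agent.L0h23.AV

open Pool.Agent.L0h45.AV
open Pool.Agent.N874.PP (Tup chA chB gq tau)
open Pool.Agent.N922.PQ (dsc IsCub JJ)

section

variable {L : Type} [Field L] [CharZero L] {a b : ℤ} {θ : L}

theorem li_of_gram (h : IsCub a b θ) (α : L) (e : Fin 3 → L)
    (hJ : ∀ i j, h.co 2 (e i * e j / α) = (JJ i j : ℚ)) : LinearIndependent ℚ e := by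
  rw [Fintype.linearIndependent_iff]
  intro g hg
  have key : ∀ j, ∑ i, g i * (JJ i j : ℚ) = 0 := by
    intro j
    have h1 : ∑ i, g i • (e i * e j / α) = 0 := by
      have h2 : ∑ i, g i • (e i * e j / α) = (∑ i, g i • e i) * (e j / α) := by
        rw [Finset.sum_mul]
        refine Finset.sum_congr rfl fun i _ => ?_
        rw [smul_mul_assoc, mul_div_assoc]
      rw [h2, hg, zero_mul]
    have h3 := congrArg (h.co 2) h1
    rw [map_sum, map_zero] at h3
    rw [← h3]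
    refine Finset.sum_congr rfl fun i _ => ?_
    rw [map_smul, hJ, smul_eq_mul]
  have k0 := key 0
  have k1 := key 1
  have k2 := key 2
  simp [Fin.sum_univ_three, JJ] at k0 k1 k2
  intro i
  fin_cases i
  · exact k2
  · exact k1
  · exact k0

theorem co_mat (h : IsCub a b θ) (α : L) (e : Fin 3 → L) (l : Fin 3)
    (M : Matrix (Fin 3) (Fin 3) ℤ) (hM : ∀ i j, h.co l (e i * e j / α) = (M i j : ℚ))
    (U : Matrix (Fin 3) (Fin 3) ℤ) (i j : Fin 3) :
    h.co l ((∑ p, (U i p : L) * e p) * (∑ q, (U j q : L) * e q) / α) =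
      ((U * M * U.transpose) i j : ℤ) := by
  have h1 : (∑ p, (U i p : L) * e p) * (∑ q, (U j q : L) * e q) / α =
      ∑ p, ∑ q, ((U i p * U j q : ℤ) : ℚ) • (e p * e q / α) := by
    rw [Finset.sum_mul_sum, Finset.sum_div]
    refine Finset.sum_congr rfl fun p _ => ?_
    rw [Finset.sum_div]
    refine Finset.sum_congr rfl fun q _ => ?_
    rw [Rat.smul_def]
    push_cast
    ring
  rw [h1, map_sum]
  have h2 : ∀ p, h.co l (∑ q, ((U i p * U j q : ℤ) : ℚ) • (e p * e q / α)) =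
      ∑ q, ((U i p * U j q : ℤ) : ℚ) * (M p q : ℚ) := by
    intro p
    rw [map_sum]
    refine Finset.sum_congr rfl fun q _ => ?_
    rw [map_smul, hM, smul_eq_mul]
  simp only [h2]
  rw [Matrix.mul_apply]
  simp only [Matrix.mul_apply, Matrix.transpose_apply]
  push_cast
  simp only [Fin.sum_univ_three]
  ring

theorem rel_of (h : IsCub a b θ) (α : L) (B B' : Tup ℤ) (U : Matrix (Fin 3) (Fin 3) ℤ)
    (hU : U * JJ * U.transpose = JJ) (hB : U * mt B * U.transpose = mt B') (hr : Rel h α B) :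
    Rel h α B' := by
  obtain ⟨e, -, hJ, hM⟩ := hr
  have h2 : ∀ i j, h.co 2 ((∑ p, (U i p : L) * e p) * (∑ q, (U j q : L) * e q) / α) =
      (JJ i j : ℚ) := by
    intro i j
    rw [co_mat h α e 2 JJ hJ U i j, hU]
  refine ⟨fun i => ∑ p, (U i p : L) * e p, li_of_gram h α _ h2, h2, fun i j => ?_⟩
  rw [co_mat h α e 1 (mt B) hM U i j, hB]

end

theorem mt_tau (u : ℤ) (B : Tup ℤ) :
    !![1, 0, 0; -2 * u, 1, 0; -2 * u ^ 2, 2 * u, 1] * mt B *
      (!![1, 0, 0; -2 * u, 1, 0; -2 * u ^ 2, 2 * u, 1] : Matrix (Fin 3) (Fin 3) ℤ).transpose =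
      mt (tau u B) := by
  ext i j
  simp only [Matrix.mul_apply, Matrix.transpose_apply, Fin.sum_univ_three]
  fin_cases i <;> fin_cases j <;> simp [Pool.Agent.L0h45.AV.mt, tau, gq] <;> ring

theorem jj_tau (u : ℤ) :
    !![1, 0, 0; -2 * u, 1, 0; -2 * u ^ 2, 2 * u, 1] * JJ *
      (!![1, 0, 0; -2 * u, 1, 0; -2 * u ^ 2, 2 * u, 1] : Matrix (Fin 3) (Fin 3) ℤ).transpose =
      JJ := by
  ext i j
  simp only [Matrix.mul_apply, Matrix.transpose_apply, Fin.sum_univ_three]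
  fin_cases i <;> fin_cases j <;> simp [JJ] <;> ring

theorem mt_rf (B : Tup ℤ) :
    !![-1, 0, 0; 0, 1, 0; 0, 0, -1] * mt B *
      (!![-1, 0, 0; 0, 1, 0; 0, 0, -1] : Matrix (Fin 3) (Fin 3) ℤ).transpose = mt (rf B) := by
  ext i j
  simp only [Matrix.mul_apply, Matrix.transpose_apply, Fin.sum_univ_three]
  fin_cases i <;> fin_cases j <;> simp [Pool.Agent.L0h45.AV.mt, rf]

theorem jj_rf :
    !![-1, 0, 0; 0, 1, 0; 0, 0, -1] * JJ *
      (!![-1, 0, 0; 0, 1, 0; 0, 0, -1] : Matrix (Fin 3) (Fin 3) ℤ).transpose = JJ := by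
  ext i j
  simp only [Matrix.mul_apply, Matrix.transpose_apply, Fin.sum_univ_three]
  fin_cases i <;> fin_cases j <;> simp [JJ]

theorem mt_sw (B : Tup ℤ) :
    !![0, 0, 1; 0, 1, 0; 1, 0, 0] * mt B *
      (!![0, 0, 1; 0, 1, 0; 1, 0, 0] : Matrix (Fin 3) (Fin 3) ℤ).transpose = mt (sw B) := by
  ext i j
  simp only [Matrix.mul_apply, Matrix.transpose_apply, Fin.sum_univ_three]
  fin_cases i <;> fin_cases j <;> simp [Pool.Agent.L0h45.AV.mt, sw]

theorem jj_sw :
    !![0, 0, 1; 0, 1, 0; 1, 0, 0] * JJ *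
      (!![0, 0, 1; 0, 1, 0; 1, 0, 0] : Matrix (Fin 3) (Fin 3) ℤ).transpose = JJ := by
  ext i j
  simp only [Matrix.mul_apply, Matrix.transpose_apply, Fin.sum_univ_three]
  fin_cases i <;> fin_cases j <;> simp [JJ]

/-- module RLM -/
theorem t_RLM : S_RLM := by
  intro L _ _ a b θ h α B hr
  exact ⟨rel_of h α B _ _ (jj_tau 1) (mt_tau 1 B) hr, rel_of h α B _ _ (jj_tau (-1)) (mt_tau (-1) B) hr,
    rel_of h α B _ _ jj_rf (mt_rf B) hr, rel_of h α B _ _ jj_sw (mt_sw B) hr⟩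

end Pool.Agent.L0h23.AV
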