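import Pool.Agent.L0h45.AV.Stm4

/-!
# Project AV (helper45), part 4: the module SE2e

The local condition at `2` of a Selmer cocycle, `a` arbitrary (adapted from helper60's `L0h60/AV/SE2.lean`).
-/

set_option autoImplicit false
set_option linter.all false

open Polynomial IsDedekindDomain WeierstrassCurve WeierstrassCurve.Affine NumberField
open Pool.Agent.TH115.GD
open scoped Classical IntermediateField

namespace Pool.Agent.L0h23.AV

open Pool.Agent.N874.PP (sW IsBeta Rt)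
open Pool.Agent.N874.PM (PLoc Lies)
open Pool.Agent.N922.PQ (dsc IsCub Ov Loc2 PL2 S_EMB S_TW2 ff ff_map pl2_congr)
open Pool.Agent.L0h45.AV (SelZ S_SE2e S_GLRe)

theorem se2_disc_ne {a b : ℤ} (hd : dsc a b ≠ 0) : 4 * (a : ℚ) ^ 3 + 27 * (b : ℚ) ^ 2 ≠ 0 := by
  intro h
  apply hd
  have h1 : ((dsc a b : ℤ) : ℚ) = 0 := by
    unfold dsc
    push_cast
    exact h
  exact_mod_cast h1

/-- module SE2e -/
theorem t_SE2e (hGLRe : S_GLRe) (hEMB : S_EMB) (hTW2 : S_TW2) : S_SE2e := by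
  intro L _ _ a b θ hc hd f hf β h hβ hh
  obtain ⟨hf1, h2f, hloc⟩ := hf
  obtain ⟨w, j, hj⟩ := hEMB ℚ ℤ (algebraMap ℚ ℚ_[2])
  have h6 : (6 : ℚ) ≠ 0 := by norm_num
  have hPL := hGLRe ℚ ℤ _ _ h6 (se2_disc_ne hd) f hf1 h2f β h hβ hh w (hloc w)
  have e1 : (((a * 1 ^ 2 : ℤ)) : ℚ) = (a : ℚ) := by rw [one_pow, mul_one]
  have e2 : (((b * 1 ^ 3 : ℤ)) : ℚ) = (b : ℚ) := by rw [one_pow, mul_one]
  have h3 := hTW2 ℚ (w.adicCompletion ℚ) j (algebraMap ℚ ℚ_[2]) hj a b 1 one_pos (by norm_num) h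
    (by rw [e1, e2]; exact hPL)
  have e3 : h.comp (C (((1 : ℤ)) : ℚ) * X) = h := by
    rw [Int.cast_one, C_1, one_mul, comp_X]
  rw [e3] at h3
  intro h' hh'
  refine pl2_congr ?_ h3
  have h4 : ff ℚ a b ∣ h - h' := by
    rw [← hc.minpoly_eq]
    apply minpoly.dvd
    rw [map_sub, hh', sub_self]
  have h5 := Polynomial.map_dvd (algebraMap ℚ ℚ_[2]) h4
  rw [ff_map, Polynomial.map_sub] at h5
  exact h5

end Pool.Agent.L0h23.AV
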